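import Pool.Agent.U479.VC.Core

set_option autoImplicit false

/-!
# Fujita's freeness conjecture for weighted complete intersections with arbitrary weights

Let `X = V(f_1, …, f_c)` be a complete intersection of dimension `n`, of degrees `d_1, …, d_c`, in a
weighted projective space `P(a_0, …, a_{n+c})`.  The weights need not be coprime, so that
`P(a)` may have singularities of any dimension.  Suppose that to every weight `a_i > 1` an equation
`f_{J(i)}` is assigned, such that weights with the same equation are coprime, and such that a point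
of `P(a)` at which the equations assigned to its nonzero coordinates vanish has a trivial
stabiliser (the weights of its nonzero coordinates have no common divisor).  Then
`O(1)` is invertible on `X`, `K_X = O(∑ d_j - ∑ a_i)`, and we show that `K_X + A_1 + … + A_m`,
`m ≥ n + 1`, is globally generated for all `A_l = O(k_l)`, `k_l ≥ 1`.  The codimension is arbitrary, `X`
may be singular, and the field is arbitrary.

If the weights are pairwise coprime then the condition says only that `X` does not contain the
coordinate points with `a_i > 1`, that is, the singular points of `P(a)`.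

Fujita's conjecture for weighted hypersurfaces (`c = 1`) is a theorem of Pizzato, Sano and Tasin.

The proof.  Let `x` be a point of `X` whose nonzero coordinates have weights larger than one.  One
needs a monomial of degree `e ≥ ∑ (d_j - 1) - ∑ (a_i - 1)` in these coordinates.  If `J(i) = J(l)` for two
of them then `e ≥ (a_i - 1)(a_l - 1)`.  Otherwise let `T` be a minimal set of nonzero coordinates closed
under all relations `c_i a_i = ∑ r_il a_l` given by the monomials of `f_{J(i)}` which do not vanish at
`x`.  The equations `f_{J(i)}`, `i ∈ T`, vanish at the point with the coordinates `x_i`, `i ∈ T`, and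
zero otherwise, so the weights `a_i`, `i ∈ T`, have no common divisor.  For every root `b ∈ T` one can
choose one relation for each `i ∈ T`, `i ≠ b`, such that these relations, used as rewriting rules,
terminate (a potential is constructed).  So every number larger than
`∑_{i ∈ T, i ≠ b} (C_i - 1) a_i - a_b`, where `C_i` is the largest coefficient of a relation for `i`, is in the
semigroup generated by the `a_i`, `i ∈ T`.  Let `M = C_b a_b` be the largest `C_i a_i`.  If the loss in
the estimate of `e` which comes from the other weights assigned to the equations `f_{J(i)}`, `i ∈ T`,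
is smaller than `M` then `e` is in the semigroup.  Otherwise `e ≥ (a_p - 1) M`, where `a_p` is the
smallest weight of `T`, and a bound of Schur for the Frobenius number applies.
-/

namespace Pool.Agent.Results.MP_9ff3e7_ag.FreenessArbitraryWeights

open MvPolynomial

variable {V κ F : Type} [Fintype V] [DecidableEq V] [Fintype κ] [Field F]

/-- `X = V(f_j)` is defined by weighted homogeneous equations `f_j` of degrees `d_j ≥ 1` in the
weighted projective space `P(a)` with the coordinates `x_i`, `i ∈ V`, of weights `a_i ≥ 1`; the number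
of the coordinates is `n + c + 1`, where `c` is the number of the equations (so that `n = dim X` if `X`
is a complete intersection); and equations `f_{J(i)}` are assigned to the weights `a_i > 1`, such that
weights with the same equation are coprime, and the weights of the nonzero coordinates of a point
have no common divisor, if the equations assigned to them vanish at the point. -/
structure InSmoothLocus (a : V → ℕ) (d : κ → ℕ) (f : κ → MvPolynomial V F) (n : ℕ) : Prop where
  weight_pos : ∀ i, 1 ≤ a i
  degree_pos : ∀ j, 1 ≤ d j
  homogeneous : ∀ j, IsWeightedHomogeneous a (f j) (d j)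
  dimension : n + Fintype.card κ + 1 = Fintype.card V
  avoids : ∃ J : {i // 1 < a i} → κ,
    (∀ i l, i ≠ l → J i = J l → Nat.Coprime (a i) (a l)) ∧
    ∀ x : V → F, x ≠ 0 → (∀ i : {i // 1 < a i}, x i ≠ 0 → eval x (f (J i)) = 0) →
      ∀ g : ℕ, (∀ i, x i ≠ 0 → g ∣ a i) → g = 1

/-- If the weights are pairwise coprime then it suffices that `X` does not contain the singular
points of `P(a)`, the coordinate points with `a_i > 1`. -/
theorem InSmoothLocus.of_coprime (a : V → ℕ) (d : κ → ℕ) (f : κ → MvPolynomial V F) (n : ℕ)
    (weight_pos : ∀ i, 1 ≤ a i) (coprime : Pairwise fun i l => Nat.Coprime (a i) (a l))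
    (degree_pos : ∀ j, 1 ≤ d j) (homogeneous : ∀ j, IsWeightedHomogeneous a (f j) (d j))
    (dimension : n + Fintype.card κ + 1 = Fintype.card V)
    (avoids : ∀ i, 1 < a i → ∃ j, eval (Pi.single i 1) (f j) ≠ 0) : InSmoothLocus a d f n := by
  classical
  refine ⟨weight_pos, degree_pos, homogeneous, dimension, fun i => (avoids i.1 i.2).choose,
    fun i l hil _ => coprime (fun h => hil (Subtype.ext h)), fun x hx h g hg => ?_⟩
  obtain ⟨i, hi⟩ := Function.ne_iff.1 hx
  by_cases h2 : ∃ l, l ≠ i ∧ x l ≠ 0
  · obtain ⟨l, hli, hl⟩ := h2
    have h3 : Nat.Coprime (a l) (a i) := coprime hli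
    have h4 : g ∣ Nat.gcd (a l) (a i) := Nat.dvd_gcd (hg l hl) (hg i hi)
    rw [h3] at h4
    exact Nat.dvd_one.1 h4
  push Not at h2
  by_cases hai : 1 < a i
  swap
  · have h3 : a i = 1 := by have := weight_pos i; omega
    have h4 := hg i hi
    rw [h3] at h4
    exact Nat.dvd_one.1 h4
  exfalso
  have h3 := (avoids i hai).choose_spec
  obtain ⟨D, hD, hc⟩ := Pool.Agent.U479.FJ.coord (homogeneous _) h3
  obtain ⟨m, h4, h5, h6⟩ := Pool.Agent.U479.FJ.other (h ⟨i, hai⟩ hi) hc hi
  have h7 : ∀ l, l ≠ i → m l = 0 := fun l hl => by
    by_contra hml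
    exact h6 l hml (h2 l hl)
  apply h5
  have h8 := homogeneous _ h4
  rw [Pool.Agent.U479.FJ.weight_eq, Finset.sum_eq_single i (fun l _ hl => by rw [h7 l hl, zero_mul])
    (fun h => absurd (Finset.mem_univ i) h), ← hD] at h8
  have h9 : m i = D := Nat.eq_of_mul_eq_mul_right (by omega) h8
  ext l
  by_cases hl : l = i
  · subst hl
    rw [Finsupp.single_eq_same, h9]
  · rw [h7 l hl, Finsupp.single_apply, if_neg (Ne.symm hl)]

/-- **Fujita's freeness conjecture for weighted complete intersections with arbitrary weights.**  Let
`A_l = O(k_l)`, `k_l ≥ 1`, be `m ≥ n + 1` ample line bundles on `X`.  The number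
`e = ∑ d_j + ∑ k_l - ∑ a_i` is not negative, and for every point `x` of `X` there is a form of degree
`e`, a section of `K_X + A_1 + … + A_m = O(e)`, which does not vanish at `x`. -/
theorem result (a : V → ℕ) (d : κ → ℕ) (f : κ → MvPolynomial V F) (n : ℕ)
    (hX : InSmoothLocus a d f n) (m : ℕ) (hm : n + 1 ≤ m) (k : Fin m → ℕ) (hk : ∀ l, 1 ≤ k l) :
    ∑ i, a i ≤ ∑ j, d j + ∑ l, k l ∧
    ∀ x : V → F, x ≠ 0 → (∀ j, eval x (f j) = 0) →
      ∃ s : MvPolynomial V F,
        IsWeightedHomogeneous a s (∑ j, d j + ∑ l, k l - ∑ i, a i) ∧ eval x s ≠ 0 := by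
  classical
  have hK : n + 1 ≤ ∑ l, k l := by
    have h1 : m ≤ ∑ l, k l := by
      calc m = ∑ _l : Fin m, 1 := by simp
        _ ≤ ∑ l, k l := Finset.sum_le_sum fun l _ => hk l
    exact hm.trans h1
  have hmain : ∑ i, a i ≤ ∑ j, d j + ∑ l, k l ∧
      ∀ x : V → F, x ≠ 0 → (∀ j, eval x (f j) = 0) →
        Pool.Agent.U479.FJ.HasMon a x (∑ j, d j + ∑ l, k l - ∑ i, a i) := by
    have ha := hX.weight_pos
    by_cases hall : ∀ i, a i = 1
    · refine ⟨?_, fun x hx _ => ?_⟩
      · have h1 : ∑ i, a i = Fintype.card V := by simp [hall]
        have h2 : Fintype.card κ ≤ ∑ j, d j := by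
          have := Finset.card_nsmul_le_sum Finset.univ d 1 fun j _ => hX.degree_pos j
          simpa using this
        have := hX.dimension
        omega
      · obtain ⟨i, hi⟩ := Function.ne_iff.1 hx
        exact Pool.Agent.U479.FJ.hasMon_single (hall i) hi _
    push Not at hall
    obtain ⟨i₀, hi₀⟩ := hall
    obtain ⟨J, hJ1, hJ3⟩ := hX.avoids
    have hi₀' : 1 < a i₀ := by have := ha i₀; omega
    obtain ⟨J', hJ'⟩ : ∃ J' : V → κ, J' = fun i => if h : 1 < a i then J ⟨i, h⟩ else J ⟨i₀, hi₀'⟩ :=
      ⟨_, rfl⟩
    have hJ'p : ∀ i (h : 1 < a i), J' i = J ⟨i, h⟩ := fun i h => by rw [hJ']; exact dif_pos h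
    have hav : ∀ x : V → F, x ≠ 0 → (∀ i, x i ≠ 0 → 1 < a i) →
        (∀ i, x i ≠ 0 → eval x (f (J' i)) = 0) → ∀ g : ℕ, (∀ i, x i ≠ 0 → g ∣ a i) → g = 1 := by
      intro x hx0 _ hx2 g hg
      refine hJ3 x hx0 (fun i hi => ?_) g hg
      rw [← hJ'p i.1 i.2]
      exact hx2 i.1 hi
    refine Pool.Agent.U479.VC.core a ha d f hX.degree_pos hX.homogeneous J' ?_ ?_ hav n
      hX.dimension (∑ l, k l) hK
    · intro i hi h
      have h1 := hav (Pi.single i 1) (by
        intro h'
        have := congrFun h' i
        rw [Pi.single_eq_same] at this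
        exact one_ne_zero this) (by
        intro l hl
        have : l = i := by
          by_contra hne
          exact hl (Pi.single_eq_of_ne hne _)
        rw [this]; exact hi) (by
        intro l hl
        have : l = i := by
          by_contra hne
          exact hl (Pi.single_eq_of_ne hne _)
        rw [this]; exact h) (a i) (by
        intro l hl
        have : l = i := by
          by_contra hne
          exact hl (Pi.single_eq_of_ne hne _)
        rw [this])
      omega
    · intro i l hil h
      by_cases hi : 1 < a i
      · by_cases hl : 1 < a l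
        · rw [hJ'p i hi, hJ'p l hl] at h
          exact hJ1 ⟨i, hi⟩ ⟨l, hl⟩ (fun h' => hil (congrArg Subtype.val h')) h
        · have : a l = 1 := by have := ha l; omega
          rw [this]; exact Nat.coprime_one_right _
      · have : a i = 1 := by have := ha i; omega
        rw [this]; exact Nat.coprime_one_left _
  obtain ⟨h1, h2⟩ := hmain
  refine ⟨h1, fun x hx hf => ?_⟩
  obtain ⟨y, hy1, hy2⟩ := h2 x hx hf
  refine ⟨monomial (Finsupp.equivFunOnFinite.symm y) 1, ?_, ?_⟩
  · refine isWeightedHomogeneous_monomial _ _ _ ?_
    rw [Pool.Agent.U479.FJ.weight_eq, ← hy2]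
    rfl
  · rw [eval_monomial, one_mul, Finsupp.prod_fintype _ _ (fun _ => pow_zero _)]
    refine Finset.prod_ne_zero_iff.2 fun i _ => ?_
    by_cases h : y i = 0
    · rw [show (Finsupp.equivFunOnFinite.symm y) i = y i from rfl, h, pow_zero]
      exact one_ne_zero
    · exact pow_ne_zero _ (hy1 i h)

end Pool.Agent.Results.MP_9ff3e7_ag.FreenessArbitraryWeights
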