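import Pool.Agent.Q47.FJ.Main

/-!
# Fujita's conjectures for toric bundles over arbitrary manifolds

Let `Y → X` be a toric bundle over a compact complex manifold `X`: all fibres are the same smooth
complete toric variety of dimension `n`, and the Cox coordinates are twisted by arbitrary line
bundles `c_i` on `X` (for instance `Y` is the projective bundle of a direct sum of line bundles).

(1) If `K_X + A_1 + ... + A_a` is globally generated for all ample line bundles `A_1, ..., A_a` on
`X`, then `K_Y + L_1 + ... + L_k` is globally generated for all `k ≥ max(a, n + 1)` and all ample line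
bundles `L_1, ..., L_k` on `Y`.

(2) If `K_X + A_1 + ... + A_b` is very ample for all ample line bundles `A_1, ..., A_b` on `X`, then
`K_Y + L_1 + ... + L_k` is very ample for all `k ≥ max(b, n + 2)` and all ample line bundles
`L_1, ..., L_k` on `Y`.

The same holds with any line bundle `κ` on `X` in place of `K_X` (and with `K_{Y/X} + κ` in place of
`K_Y`), and if all line bundles which occur are in a given group `Pic` of line bundles on `X`.

Consequences. Let `m = dim X`, so that `dim Y = m + n`.
* The hypothesis of (1) holds with `a = m + 1` for `m ≤ 4`, and the one of (2) with `b = m + 2` for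
  `m ≤ 2`: the theorems of Reider, Ein and Lazarsfeld, and Kawamata are about `K_X + L` where `L` has
  large intersection numbers with all subvarieties, and a sum of `m + 1` (`m + 2`) ample line bundles
  has this property. So `Q1` holds for all toric bundles over manifolds of dimension at most four,
  and `Q2` for all toric bundles over curves and surfaces, with fibres of any dimension.
* By the theorem of Angehrn and Siu the hypothesis of (1) holds with `a = m (m + 1) / 2 + 1` for every
  projective manifold `X`. So `K_Y + k L` is globally generated for `k ≥ max(n, m (m + 1) / 2) + 1`, and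
  `Q1` holds for all toric bundles over ALL projective manifolds `X` of dimension `m` if
  `n ≥ m (m - 1) / 2` (for all such bundles `m (m + 1) / 2 + 1 ≤ m + n + 1`).
* If the conjectures hold for `X`, in the form with several ample line bundles, then they hold for all
  toric bundles over `X`.

In the starting library (`Pool.Agent.Q47.FJ.Red`, helper47) the theorem is proved for a fixed number of
line bundles; it has been handed in only for quotients of complex tori as bases
(`MP_9ff3e7_ag.BagneraDeFranchis`).
-/

set_option autoImplicit false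

namespace Pool.Agent.Results.MP_9ff3e7_ag.ToricBundlesOverAnyBase

open Q47.FJ Q47.TB

variable {E I K : Type} [NormedAddCommGroup E] [NormedSpace ℂ E]

/-- The line bundle `κ + A_1 + ... + A_a` on `X` has the property `P` for all ample line bundles
`A_1, ..., A_a` in the group `Pic`. -/
def AdjointX (X : Atlas E I K) (Pic : Subgroup (LB X)) (P : LB X → Prop) (κ : LB X) (a : ℕ) :
    Prop :=
  ∀ A : Fin a → LB X, (∀ j, A j ∈ Pic ∧ IsAmple (A j)) → P (κ * ∏ j, A j)

/-- The line bundle `O_Y(-1, ..., -1; N) + L_1 + ... + L_k` on the toric bundle `Y → X` has the property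
`P` for all ample line bundles `L_j = O_Y(d_j; M_j)` on `Y`, `M_j` in the group `Pic`. (Here `P d M` is a
property of the line bundle `O_Y(d; M)`, and `O_Y(-1, ..., -1; N)` is `K_Y` for a certain `N`, see
`IsCanonicalY`.) -/
def AdjointY {X : Atlas E I K} (Pic : Subgroup (LB X)) {ι : Type} [Fintype ι] {n : ℕ}
    (u : ι → Fin n → ℤ) (S : Set (Set ι)) (c : ι → LB X) (P : (ι → ℤ) → LB X → Prop) (N : LB X)
    (k : ℕ) : Prop :=
  ∀ (d : Fin k → ι → ℤ) (M : Fin k → LB X), (∀ j, M j ∈ Pic ∧ AmpleY u S c (d j) (M j)) →
    P (fun i => ∑ j, d j i - 1) (N * ∏ j, M j)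

variable {X : Atlas E I K} {Pic : Subgroup (LB X)}

/-- One more ample summand. -/
theorem AdjointX.succ {P : LB X → Prop} {κ : LB X} {m : ℕ} (h : AdjointX X Pic P κ (m + 1)) :
    AdjointX X Pic P κ (m + 1 + 1) := by
  intro A hA
  have h1 := h (Fin.cons (A 0 * A 1) fun j => A j.succ.succ) (by
    intro j
    refine Fin.cases ?_ (fun j => ?_) j
    · rw [Fin.cons_zero]
      exact ⟨Pic.mul_mem (hA 0).1 (hA 1).1, (hA 0).2.mul (hA 1).2⟩
    · rw [Fin.cons_succ]
      exact hA _)
  rw [Fin.prod_univ_succ] at h1
  simp only [Fin.cons_zero, Fin.cons_succ] at h1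
  rw [Fin.prod_univ_succ, Fin.prod_univ_succ, ← mul_assoc (A 0)]
  exact h1

/-- More ample summands. -/
theorem AdjointX.mono {P : LB X → Prop} {κ : LB X} {a k : ℕ} (ha : 1 ≤ a) (hk : a ≤ k)
    (h : AdjointX X Pic P κ a) : AdjointX X Pic P κ k := by
  induction k, hk using Nat.le_induction with
  | base => exact h
  | succ k hk ih =>
    obtain ⟨m, rfl⟩ := Nat.exists_eq_add_of_le' (ha.trans hk)
    exact ih.succ

/-- **Fujita's conjectures for toric bundles over arbitrary manifolds.** Let `Y → X` be the toric
bundle with the smooth complete fan `u`, `S` of dimension `n` and the twists `c i`.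

(1) Let `κ` be a line bundle on `X` such that `κ + A_1 + ... + A_a` is globally generated for all ample
line bundles `A_1, ..., A_a` (in the group `Pic`). Then `K_{Y/X} + κ + L_1 + ... + L_k` is globally
generated for all `k ≥ max(a, n + 1)` and all ample line bundles `L_1, ..., L_k` on `Y`.

(2) Let `κ` be a line bundle on `X` such that `κ + A_1 + ... + A_b` is very ample for all ample line
bundles `A_1, ..., A_b` (in the group `Pic`). Then `K_{Y/X} + κ + L_1 + ... + L_k` is very ample for
all `k ≥ max(b, n + 2)` and all ample line bundles `L_1, ..., L_k` on `Y`.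

(3), (4) In particular both statements hold for `K_X` and `K_Y`. -/
theorem result (X : Atlas E I K) (Pic : Subgroup (LB X)) {ι : Type} [Fintype ι] (n : ℕ)
    (u : ι → Fin n → ℤ) (S : Set (Set ι)) (hS : IsSmoothFan u S) (c : ι → LB X)
    (hc : ∀ i, c i ∈ Pic) :
    (∀ (κ : LB X) (a : ℕ), 1 ≤ a → AdjointX X Pic GG κ a → ∀ k : ℕ, a ≤ k → n + 1 ≤ k →
      AdjointY Pic u S c (GGY u S c) (κ * (∏ i, c i)⁻¹) k) ∧
    (∀ (κ : LB X) (b : ℕ), 1 ≤ b → AdjointX X Pic VA κ b → ∀ k : ℕ, b ≤ k → n + 2 ≤ k →
      AdjointY Pic u S c (VAY u S c) (κ * (∏ i, c i)⁻¹) k) ∧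
    (∀ a : ℕ, 1 ≤ a → (∀ κ : LB X, IsCanonical κ → AdjointX X Pic GG κ a) →
      ∀ N : LB X, IsCanonicalY c N → ∀ k : ℕ, a ≤ k → n + 1 ≤ k →
        AdjointY Pic u S c (GGY u S c) N k) ∧
    (∀ b : ℕ, 1 ≤ b → (∀ κ : LB X, IsCanonical κ → AdjointX X Pic VA κ b) →
      ∀ N : LB X, IsCanonicalY c N → ∀ k : ℕ, b ≤ k → n + 2 ≤ k →
        AdjointY Pic u S c (VAY u S c) N k) := by
  have h1 : ∀ (κ : LB X) (a : ℕ), 1 ≤ a → AdjointX X Pic GG κ a → ∀ k : ℕ, a ≤ k → n + 1 ≤ k →
      AdjointY Pic u S c (GGY u S c) (κ * (∏ i, c i)⁻¹) k := by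
    intro κ a ha h k hak hnk d M hM
    exact gg_adj hS hc κ hnk (fun j => (hM j).1) (fun j => (hM j).2) (h.mono ha hak)
  have h2 : ∀ (κ : LB X) (b : ℕ), 1 ≤ b → AdjointX X Pic VA κ b → ∀ k : ℕ, b ≤ k → n + 2 ≤ k →
      AdjointY Pic u S c (VAY u S c) (κ * (∏ i, c i)⁻¹) k := by
    intro κ b hb h k hbk hnk d M hM
    exact va_adj hS hc κ hnk (fun j => (hM j).1) (fun j => (hM j).2) (h.mono hb hbk)
  refine ⟨h1, h2, ?_, ?_⟩
  · intro a ha h N hN k hak hnk
    have := h1 (N * ∏ i, c i) a ha (h _ (canonical_of hN)) k hak hnk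
    rwa [canonical_eq] at this
  · intro b hb h N hN k hbk hnk
    have := h2 (N * ∏ i, c i) b hb (h _ (canonical_of hN)) k hbk hnk
    rwa [canonical_eq] at this

end Pool.Agent.Results.MP_9ff3e7_ag.ToricBundlesOverAnyBase
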